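import Pool.Agent.Q94.VarLower
import Pool.Agent.Q94.VarUpper

/-!
# The minimum degree of a variant `T_n^a` does not only depend on `n` and the rank of `a`

For `n = 1024` and rank two, the variant whose sandwich element has kernel classes of sizes
`1, 1023` embeds in `T_1567`, while the variant whose sandwich element has kernel classes of sizes
`512, 512` does not embed in `T_m` for any `m ≤ 1567`.
-/

namespace Pool.Agent.Results.MP_6b192e_al.DegreeDependsOnKernel

open Finset Pool.Agent.Q94

/-- `T_n^a` (product `x ⋆ y = x ∘ a ∘ y`) embeds in the full transformation monoid `T_m`. -/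
def Embeds {n : ℕ} (a : Fin n → Fin n) (m : ℕ) : Prop :=
  ∃ φ : (Fin n → Fin n) → (Fin m → Fin m), Function.Injective φ ∧
    ∀ x y : Fin n → Fin n, φ (x ∘ a ∘ y) = φ x ∘ φ y

/-- The degrees `m ≥ 1` in which `T_n^a` can be embedded; `μ (T_n^a)` is the least of them. -/
def Degrees {n : ℕ} (a : Fin n → Fin n) : Set ℕ := {m | 1 ≤ m ∧ Embeds a m}

/-- the rank of a transformation -/
def rank {n : ℕ} (a : Fin n → Fin n) : ℕ := (univ.image a).card

theorem transport {n : ℕ} (a : Fin n → Fin n) {Ω : Type} [Fintype Ω] {m : ℕ}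
    (hm : Fintype.card Ω = m) (φ : (Fin n → Fin n) → Ω → Ω) (hinj : Function.Injective φ)
    (hom : ∀ x y : Fin n → Fin n, φ (x ∘ a ∘ y) = φ x ∘ φ y) : Embeds a m := by
  let e : Ω ≃ Fin m := Fintype.equivFinOfCardEq hm
  refine ⟨fun x => e ∘ φ x ∘ e.symm, ?_, ?_⟩
  · intro x y h
    apply hinj
    funext ω
    have := congrFun h (e ω)
    simpa using this
  · intro x y
    funext p
    simp [hom]

theorem embeds_add {n : ℕ} (a : Fin n → Fin n) : Embeds a (n + n) := by
  apply transport a (Ω := Fin n ⊕ Fin n) (by simp)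
    (fun x p => Sum.elim (fun q => Sum.inl (x (a q))) (fun q => Sum.inl (x q)) p)
  · intro x y h
    funext j
    have := congrFun h (Sum.inr j)
    simpa using this
  · intro x y
    funext p
    cases p <;> simp

theorem degrees_nonempty {n : ℕ} (hn : 1 ≤ n) (a : Fin n → Fin n) : (Degrees a).Nonempty :=
  ⟨n + n, by omega, embeds_add a⟩

/-- the sandwich element with kernel type `(1, 1023)` -/
def a1 : Fin 1024 → Fin 1024 := VarUpper.av 0 1

/-- the sandwich element with kernel type `(512, 512)` -/
def a2 : Fin 1024 → Fin 1024 := fun p => if p.val < 512 then 0 else 512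

theorem pow_ineq : (1023 : ℕ) ^ 1022 ≤ 224 ^ 1309 := by decide +kernel

theorem pow_ineq' (t e : ℕ) (he : e ≤ 1022) (het : e ≤ 1024 - t) (ht : t ≤ 512) :
    (1023 : ℕ) ^ e ≤ 224 ^ (1311 - t) := by
  have h0 : (1023 : ℕ) ^ 1022 ≤ 224 ^ 1309 := pow_ineq
  generalize hA : (1023 : ℕ) = A at *
  generalize hC : (224 : ℕ) = C at *
  have hAC : C ≤ A := by omega
  have hC0 : 0 < C := by omega
  by_cases h2 : t ≤ 2
  · calc A ^ e ≤ A ^ 1022 := Nat.pow_le_pow_right (by omega) he
      _ ≤ C ^ 1309 := h0
      _ ≤ C ^ (1311 - t) := Nat.pow_le_pow_right hC0 (by omega)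
  · have h3 : A ^ (1024 - t) * C ^ (t - 2) ≤ C ^ (1311 - t) * C ^ (t - 2) := by
      calc A ^ (1024 - t) * C ^ (t - 2) ≤ A ^ (1024 - t) * A ^ (t - 2) :=
            Nat.mul_le_mul_left _ (Nat.pow_le_pow_left hAC _)
        _ = A ^ 1022 := by rw [← pow_add]; congr 1; omega
        _ ≤ C ^ 1309 := h0
        _ = C ^ (1311 - t) * C ^ (t - 2) := by rw [← pow_add]; congr 1; omega
    have h4 := Nat.le_of_mul_le_mul_right h3 (pow_pos hC0 _)
    exact le_trans (Nat.pow_le_pow_right (by omega) het) h4

/-- the index type of the special component -/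
abbrev B : Type := Fin 1024 ⊕ Fin 287

/-- the sets attached to sets -/
def HH (S : Finset (Fin 1024)) : Finset B := (VarUpper.mn S).map Function.Embedding.inl

/-- digits -/
def dig (l : Fin 5) (p : Fin 1024) : Option (Fin 4) :=
  if p = 0 then none else some (finFunctionFinEquiv.symm (Fin.cast (by norm_num : 1024 = 4 ^ 5) p) l)

theorem dig_inj (p q : Fin 1024) (h : ∀ l, dig l p = dig l q) : p = q := by
  unfold dig at h
  by_cases hp : p = 0
  · by_cases hq : q = 0
    · rw [hp, hq]
    · have := h 0
      simp [hp, hq] at this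
  · by_cases hq : q = 0
    · have := h 0
      simp [hp, hq] at this
    · simp only [hp, hq, if_false] at h
      have h1 : finFunctionFinEquiv.symm (Fin.cast (by norm_num : 1024 = 4 ^ 5) p) =
          finFunctionFinEquiv.symm (Fin.cast (by norm_num : 1024 = 4 ^ 5) q) := by
        funext l
        exact Option.some.inj (h l)
      have h2 := finFunctionFinEquiv.symm.injective h1
      exact Fin.cast_injective _ h2

theorem embeds_a1 : Embeds a1 1567 := by
  classical
  have hz : (0 : Fin 1024) ≠ 1 := by decide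
  obtain ⟨code, hcode⟩ := VarUpper.exists_code (Γ := Fin 224) (B := B) (0 : Fin 1024) 1 HH (by
    intro x
    refine le_trans (VarUpper.card_key 0 1 hz x) ?_
    have hcB : Fintype.card B = 1311 := by simp
    have hH : (HH (VarUpper.D 0 (VarUpper.av 0 1 ∘ x))).card =
      (VarUpper.mn (VarUpper.D 0 (VarUpper.av 0 1 ∘ x))).card := by simp [HH]
    rw [hcB, hH, Fintype.card_fin]
    obtain ⟨e1, e2⟩ := VarUpper.exponent 0 1 hz x
    have m := VarUpper.mn_card (VarUpper.D 0 (VarUpper.av 0 1 ∘ x))
    exact pow_ineq' _ _ e1 e2 (by omega))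
  let S : VarUpper.Setup 1024 (Fin 5) (Fin 4) (Fin 224) B :=
    { z := 0
      o := 1
      hzo := hz
      θ := dig
      θz := by intro l; simp [dig]
      θn := by intro l p hp; simp [dig, hp]
      θinj := dig_inj
      c0 := 0
      c1 := 1
      c01 := by decide
      H := HH
      H0 := by simp [HH, VarUpper.mn]
      Hinj := by
        intro S T hS hT h
        exact VarUpper.mn_inj 0 S T hS hT (Finset.map_injective _ h)
      code := code
      hcode := hcode }
  apply transport a1 (Ω := VarUpper.Setup.Om (Fin 5) (Fin 4) (Fin 224) B) _ S.φ S.inj S.hom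
  simp [VarUpper.Setup.Om]

theorem not_embeds_a2 (m : ℕ) (hm : m ≤ 1567) : ¬ Embeds a2 m := by
  classical
  rintro ⟨φ, hinj, hom⟩
  have D : VarLower.Data a2 0 512 φ :=
    { ne := by decide
      h1 := by simp [a2]
      h2 := by
        have : ¬ ((512 : Fin 1024).val < 512) := by decide
        simp [a2, this]
      h := by
        intro j
        unfold a2
        split_ifs <;> simp
      hom := by
        intro x y ω
        rw [hom]; rfl
      inj := hinj }
  have hk1 : Fintype.card {j : Fin 1024 // a2 j = 0} = 512 := by decide +kernel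
  have hk2 : Fintype.card {j : Fin 1024 // a2 j = 512} = 512 := by decide +kernel
  have key := VarLower.lower D (by norm_num) 512 18 hk1 hk2 (VarLower.sum_of_prod)
  have hpb : (VarLower.P φ).card + ((VarLower.P φ)ᶜ).card = m := by
    rw [Finset.card_add_card_compl, Fintype.card_fin]
  generalize (VarLower.P φ).card = p at key hpb
  generalize ((VarLower.P φ)ᶜ).card = b at key hpb
  have spec := VarLower.chk_spec 1567 1024 512 1022 1568 VarLower.chk_true b (by omega)
  generalize hA : (1024 : ℕ) ^ 1022 = A at spec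
  generalize hB : (512 : ℕ) ^ 1022 = B' at spec
  have e : 1024 - 2 = 1022 := by norm_num
  rw [e, hA, hB] at key
  rcases key with ⟨_, h⟩ | h
  · have : (p - 2 * 18) ^ b ≤ (1567 - b - 36) ^ b := Nat.pow_le_pow_left (by omega) b
    omega
  · have : p ^ b ≤ (1567 - b) ^ b := Nat.pow_le_pow_left (by omega) b
    omega

theorem rank_a1 : rank a1 = 2 := by decide +kernel

theorem rank_a2 : rank a2 = 2 := by decide +kernel

/-- Disproof: in `T_1024` there are two sandwich elements `a`, `b` of rank two such that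
`μ (T_n^a) ≤ 1567 < μ (T_n^b)`. -/
theorem result : ∃ (n : ℕ) (a b : Fin n → Fin n) (m m' : ℕ), n = 1024 ∧ rank a = 2 ∧ rank b = 2 ∧
    IsLeast (Degrees a) m ∧ IsLeast (Degrees b) m' ∧ m ≤ 1567 ∧ 1567 < m' := by
  refine ⟨1024, a1, a2, sInf (Degrees a1), sInf (Degrees a2), rfl, rank_a1, rank_a2, ?_, ?_, ?_, ?_⟩
  · exact ⟨Nat.sInf_mem (degrees_nonempty (by norm_num) a1), fun m hm => Nat.sInf_le hm⟩
  · exact ⟨Nat.sInf_mem (degrees_nonempty (by norm_num) a2), fun m hm => Nat.sInf_le hm⟩
  · exact Nat.sInf_le ⟨by norm_num, embeds_a1⟩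
  · by_contra h
    have h2 : sInf (Degrees a2) ∈ Degrees a2 :=
      Nat.sInf_mem (degrees_nonempty (by norm_num) a2)
    exact not_embeds_a2 _ (by omega) h2.2

end Pool.Agent.Results.MP_6b192e_al.DegreeDependsOnKernel
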